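import Mathlib

set_option autoImplicit false
set_option maxHeartbeats 400000

namespace Pool.Agent.Results.MP_a7b7fa_al.BaerNotFitting

open Subgroup Module
open scoped commutatorElement

lemma sn {G : Type} [Group G] {A A' : Subgroup G} {g : G} (hle : A ≤ A')
    (h1 : ∀ a ∈ A', g⁻¹ * (a * g * a⁻¹) ∈ A) (h2 : ∀ a' ∈ A', ∀ a ∈ A, a' * a * a'⁻¹ ∈ A)
    (h : (zpowers g ⊔ A').IsSubnormal) : (zpowers g ⊔ A).IsSubnormal := by
  refine .step _ _ (sup_le_sup_left hle _) h ((normal_subgroupOf_iff_le_normalizer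
    (sup_le_sup_left hle _)).2 (sup_le (le_sup_left.trans le_normalizer) fun a ha => ?_))
  have k : ∀ a ∈ A', ∀ x ∈ zpowers g ⊔ A, a * x * a⁻¹ ∈ zpowers g ⊔ A := fun a ha x hx => by
    have : zpowers g ⊔ A ≤ (zpowers g ⊔ A).comap (MulAut.conj a).toMonoidHom := by
      refine sup_le (zpowers_le_of_mem ?_) fun b hb => mem_sup_right (h2 a ha b hb)
      simpa using mul_mem_sup (mem_zpowers g) (h1 a ha)
    exact this hx
  exact mem_normalizer_iff.2 fun x => ⟨k a ha x, fun hx => by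
    simpa [mul_assoc] using k a⁻¹ (inv_mem ha) _ hx⟩

lemma frob {R : Type} [Semiring R] (h2 : ∀ x : R, x + x = 0) (n : R) (k : ℕ) :
    (1 + n) ^ 2 ^ k = 1 + n ^ 2 ^ k := by
  induction k with
  | zero => simp
  | succ k ih =>
    rw [pow_succ, pow_mul, ih, pow_mul, sq, sq, add_mul, mul_add, mul_add, one_mul, one_mul, mul_one,
      add_assoc, ← add_assoc (n ^ 2 ^ k), h2, zero_add]

abbrev F := ZMod 2
abbrev W := ℚ →₀ F

lemma f2 (x : F) : x + x = 0 := CharTwo.add_self_eq_zero x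
lemma f3 (x y : F) : x + (y + x) = y := by rw [add_left_comm, f2, add_zero]
lemma w2 (x : W) : x + x = 0 := Finsupp.ext fun _ => f2 _
lemma w3 (x y : W) : x + (y + x) = y := by rw [add_left_comm, w2, add_zero]
lemma e2 (x : End F W) : x + x = 0 := LinearMap.ext fun _ => w2 _

@[ext] structure Γ where
  b : W → F
  h : (End F W)ˣ

noncomputable instance : Group Γ where
  mul σ τ := ⟨fun w => τ.b w + σ.b (τ.h.1 w), σ.h * τ.h⟩
  one := ⟨0, 1⟩
  inv σ := ⟨fun w => σ.b (σ.h⁻¹.1 w), σ.h⁻¹⟩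
  mul_assoc _ _ _ := Γ.ext (funext fun _ => (add_assoc _ _ _).symm) (mul_assoc _ _ _)
  one_mul _ := Γ.ext (funext fun _ => add_zero _) (one_mul _)
  mul_one _ := Γ.ext (funext fun _ => zero_add _) (mul_one _)
  inv_mul_cancel σ := Γ.ext (funext fun w => by
    change σ.b w + σ.b ((σ.h⁻¹ * σ.h).1 w) = 0
    rw [inv_mul_cancel]; exact f2 _) (inv_mul_cancel _)

@[simp] lemma mul_b (σ τ : Γ) (w : W) : (σ * τ).b w = τ.b w + σ.b (τ.h.1 w) := rfl
@[simp] lemma mul_h (σ τ : Γ) : (σ * τ).h = σ.h * τ.h := rfl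
@[simp] lemma one_b : (1 : Γ).b = 0 := rfl
@[simp] lemma one_h : (1 : Γ).h = 1 := rfl
@[simp] lemma inv_b (σ : Γ) (w : W) : σ⁻¹.b w = σ.b (σ.h⁻¹.1 w) := rfl
@[simp] lemma inv_h (σ : Γ) : σ⁻¹.h = σ.h⁻¹ := rfl

noncomputable def e (a c : ℚ) : End F W := Finsupp.lsingle a ∘ₗ Finsupp.lapply c

@[simp] lemma e_app (a c : ℚ) (w : W) : e a c w = Finsupp.single a (w c) := rfl

lemma ee (a b c d : ℚ) : e a b * e c d = if b = c then e a d else 0 := by
  refine LinearMap.ext fun w => ?_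
  split_ifs with h <;> simp [h]

lemma x_sq {a c : ℚ} (h : a < c) : (1 + e a c) * (1 + e a c) = 1 := by
  simp [mul_add, add_mul, ee, h.ne', add_assoc, e2]

noncomputable def x {a c : ℚ} (h : a < c) : Γ := ⟨0, 1 + e a c, 1 + e a c, x_sq h, x_sq h⟩

noncomputable def y (w : W) (c : ℚ) : Γ :=
  ⟨Pi.single w 1 + Pi.single (w + Finsupp.single c 1) 1, 1⟩

noncomputable def G : Subgroup Γ :=
  closure {σ | (∃ (a c : ℚ) (h : a < c), σ = x h) ∨ ∃ (w : W) (c : ℚ), w 0 = 1 ∧ c < 0 ∧ σ = y w c}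

noncomputable def X {a c : ℚ} (h : a < c) : G := ⟨x h, subset_closure (Or.inl ⟨a, c, h, rfl⟩)⟩

noncomputable def Y {w : W} {c : ℚ} (h : w 0 = 1) (hc : c < 0) : G :=
  ⟨y w c, subset_closure (Or.inr ⟨w, c, h, hc, rfl⟩)⟩

noncomputable def coef (n : End F W) (a c : ℚ) : F := n (Finsupp.single c 1) a

lemma coef_mul {n m : End F W} {a c : ℚ} (h : coef (n * m) a c ≠ 0) :
    ∃ b, coef n a b ≠ 0 ∧ coef m b c ≠ 0 := by
  by_contra hn
  push Not at hn
  apply h
  rw [coef, End.mul_apply, ← Finsupp.sum_single (m _), map_finsuppSum, Finsupp.sum_apply]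
  refine Finset.sum_eq_zero fun b hb => ?_
  have : coef n a b = 0 := by_contra fun h => Finsupp.mem_support_iff.1 hb (hn b h)
  change n (Finsupp.single b _) a = 0
  rw [← Finsupp.smul_single_one, map_smul, Finsupp.smul_apply, show n _ a = 0 from this, smul_zero]

lemma coef_add {n m : End F W} {a c : ℚ} (h : coef (n + m) a c ≠ 0) :
    coef n a c ≠ 0 ∨ coef m a c ≠ 0 := by
  by_contra hn
  push Not at hn
  exact h ((congrArg₂ (· + ·) hn.1 hn.2).trans (add_zero _))

lemma coef_zero {n : End F W} (h : ∀ a c, coef n a c = 0) : n = 0 :=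
  Finsupp.lhom_ext fun c r => by
    rw [← Finsupp.smul_single_one, map_smul, show n _ = 0 from Finsupp.ext fun a => h a c]; simp

noncomputable def d (σ : Γ) : End F W := 1 + σ.h.1

lemma hd (σ : Γ) : σ.h.1 = 1 + d σ := by rw [d, ← add_assoc, e2, zero_add]

lemma d_mul (σ τ : Γ) : d (σ * τ) = d σ + d τ + d σ * d τ := by
  rw [d, mul_h, Units.val_mul, hd, hd, mul_add, add_mul, add_mul, mul_one, mul_one, one_mul,
    ← add_assoc, ← add_assoc, ← add_assoc, e2, zero_add]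

lemma str {σ : Γ} (h : σ ∈ G) : (∃ S : Finset ℚ, ∀ a c, coef (d σ) a c ≠ 0 → a < c ∧ a ∈ S ∧ c ∈ S) ∧
    (Function.support σ.b).Finite := by
  have d1 : ∀ a c, coef (1 + 1) a c = 0 := fun a c => by rw [e2]; rfl
  have gx : ∀ a c (h : a < c), (∃ S : Finset ℚ, ∀ p q, coef (1 + (1 + e a c)) p q ≠ 0 →
      p < q ∧ p ∈ S ∧ q ∈ S) := fun a c h => ⟨{a, c}, fun p q hpq => by
    rw [← add_assoc, e2, zero_add, coef, e_app, Finsupp.single_apply_ne_zero,
      Finsupp.single_apply_ne_zero] at hpq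
    simp [hpq.1, ← hpq.2.1, h]⟩
  have gy : ∀ w c, (Function.support (y w c).b).Finite := fun w c =>
    (Set.toFinite {w, w + Finsupp.single c 1}).subset fun z hz => by
      by_contra hn
      simp only [Set.mem_insert_iff, Set.mem_singleton_iff, not_or] at hn
      exact hz (by simp [y, hn.1, hn.2])
  induction h using closure_induction'' with
  | one => exact ⟨⟨∅, fun a c h => absurd (d1 a c) h⟩, by simp⟩
  | mem σ hσ =>
    rcases hσ with ⟨a, c, h, rfl⟩ | ⟨w, c, -, -, rfl⟩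
    · exact ⟨gx a c h, by simp [x]⟩
    · exact ⟨⟨∅, fun a c h => absurd (d1 a c) h⟩, gy w c⟩
  | inv_mem σ hσ =>
    rcases hσ with ⟨a, c, h, rfl⟩ | ⟨w, c, -, -, rfl⟩
    · exact ⟨gx a c h, Set.finite_empty.subset fun z hz => hz rfl⟩
    · exact ⟨⟨∅, fun a c h => absurd (d1 a c) h⟩, gy w c⟩
  | mul σ τ _ _ h1 h2 =>
    obtain ⟨⟨S, hS⟩, f1⟩ := h1
    obtain ⟨⟨T, hT⟩, f2⟩ := h2
    refine ⟨⟨S ∪ T, fun a c h => ?_⟩, (f2.union (f1.preimage (f := τ.h.1)
      ((End.isUnit_iff _).1 τ.h.isUnit).1.injOn)).subset fun w hw => ?_⟩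
    · rw [d_mul] at h
      rcases coef_add h with h | h
      · rcases coef_add h with h | h
        · simp [hS a c h]
        · simp [hT a c h]
      · obtain ⟨b, h1, h2⟩ := coef_mul h
        simp [hS a b h1, hT b c h2, (hS a b h1).1.trans (hT b c h2).1]
    · by_contra hn
      simp only [Set.mem_union, Set.mem_preimage, Function.mem_support, not_or, not_not] at hn
      exact hw (by simp [hn.1, hn.2])

def J (S : Finset ℚ) (k : ℕ) : AddSubmonoid (End F W) where
  carrier := {n | ∀ a c, coef n a c ≠ 0 → a < c ∧ k ≤ (S.filter fun s => a ≤ s ∧ s < c).card}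
  zero_mem' := fun _ _ h => absurd rfl h
  add_mem' := fun h1 h2 a c h => (coef_add h).elim (h1 a c) (h2 a c)

lemma J_mul {S : Finset ℚ} {i j : ℕ} {n m : End F W} (hn : n ∈ J S i) (hm : m ∈ J S j) :
    n * m ∈ J S (i + j) := fun a c h => by
  obtain ⟨b, h1, h2⟩ := coef_mul h
  obtain ⟨p1, p2⟩ := hn a b h1
  obtain ⟨q1, q2⟩ := hm b c h2
  refine ⟨p1.trans q1, (add_le_add p2 q2).trans ?_⟩
  rw [← Finset.card_union_of_disjoint (Finset.disjoint_filter.2 fun s _ h1 h2 => by grind)]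
  exact Finset.card_le_card fun s => by grind

lemma J_mono {S : Finset ℚ} {i j : ℕ} (h : i ≤ j) {n : End F W} (hn : n ∈ J S j) : n ∈ J S i :=
  fun a c hc => ⟨(hn a c hc).1, h.trans (hn a c hc).2⟩

lemma J_top {S : Finset ℚ} {k : ℕ} (h : S.card < k) {n : End F W} (hn : n ∈ J S k) : n = 0 :=
  coef_zero fun a c => by_contra fun hc =>
    absurd ((hn a c hc).2.trans (Finset.card_filter_le _ _)) (not_le.2 h)

lemma J0 (S : Finset ℚ) (σ : G) : d σ.1 ∈ J S 0 := fun a c h => by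
  obtain ⟨T, hT⟩ := (str σ.2).1
  exact ⟨(hT a c h).1, Nat.zero_le _⟩

def N (S : Finset ℚ) (k : ℕ) : Subgroup G where
  carrier := {σ | d σ.1 ∈ J S k}
  one_mem' := by
    change 1 + 1 ∈ J S k
    rw [e2]; exact zero_mem _
  mul_mem' := fun h1 h2 => by
    change d (_ * _) ∈ J S k
    rw [d_mul]
    exact add_mem (add_mem h1 h2) (J_mono (Nat.le_add_right _ _) (J_mul h1 h2))
  inv_mem' := fun {σ} h => by
    have h1 := d_mul σ.1 σ⁻¹.1
    have h2 : d (σ.1 * σ⁻¹.1) = 0 := by simp [d, e2]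
    have : d σ⁻¹.1 = d σ.1 + d σ.1 * d σ⁻¹.1 := by
      rw [h2, add_right_comm] at h1
      calc _ = 0 + d σ⁻¹.1 := (zero_add _).symm
        _ = _ := by rw [h1, add_assoc, e2, add_zero]
    change d σ⁻¹.1 ∈ J S k
    rw [this]
    exact add_mem h (J_mul h (J0 S σ⁻¹))

lemma N_comm {S : Finset ℚ} {i j : ℕ} {σ τ : G} (h1 : σ ∈ N S i) (h2 : τ ∈ N S j) :
    σ * τ * σ⁻¹ * τ⁻¹ ∈ N S (i + j) := by
  have e1 : d (σ * τ * σ⁻¹ * τ⁻¹).1 = (d σ.1 * d τ.1 + d τ.1 * d σ.1) * (1 + d (τ * σ)⁻¹.1) := by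
    have : d σ.1 * d τ.1 + d τ.1 * d σ.1 = (τ * σ).1.h.1 + (σ * τ).1.h.1 := by
      rw [hd (τ * σ).1, hd (σ * τ).1, coe_mul, coe_mul, d_mul, d_mul]
      rw [← zero_add (_ * _ + _ * _), ← e2 (1 + d σ.1 + d τ.1)]
      abel
    rw [this, ← hd, add_mul, d]
    simp [mul_assoc]
  have h3 : d σ.1 * d τ.1 + d τ.1 * d σ.1 ∈ J S (i + j) :=
    add_mem (J_mul h1 h2) (add_comm i j ▸ J_mul h2 h1)
  change d _ ∈ J S (i + j)
  rw [e1, mul_add, mul_one]
  exact add_mem h3 (J_mul (i := i + j) (j := 0) h3 (J0 S _))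

noncomputable def pre (g : Γ) : End F (W → F) := LinearMap.funLeft F F g.h.1

def B (g : Γ) (j : ℕ) : Subgroup G where
  carrier := {σ | σ.1.h = 1 ∧ ((1 + pre g) ^ j) σ.1.b = 0}
  one_mem' := ⟨rfl, map_zero _⟩
  mul_mem' := fun {σ τ} h1 h2 => ⟨by simp [h1.1, h2.1], by
    have : (σ * τ).1.b = τ.1.b + σ.1.b := funext fun w => by simp [h2.1]
    rw [this, map_add, h1.2, h2.2, add_zero]⟩
  inv_mem' := fun {σ} h => ⟨by simp [h.1], by
    have : σ⁻¹.1.b = σ.1.b := funext fun w => by simp [h.1]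
    rw [this, h.2]⟩

lemma baer (g : G) : (zpowers g).IsSubnormal := by
  obtain ⟨S, hS⟩ := (str g.2).1
  have g1 : g ∈ N S 1 := fun a c h => ⟨(hS a c h).1, Finset.card_pos.2
    ⟨a, Finset.mem_filter.2 ⟨(hS a c h).2.1, le_rfl, (hS a c h).1⟩⟩⟩
  have nn : ∀ k (a : G), ∀ b ∈ N S k, a * b * a⁻¹ ∈ N S k := fun k a b hb => by
    have := N_comm (show a ∈ N S 0 from J0 S a) hb
    rw [zero_add] at this
    simpa using mul_mem this hb
  have h1 : ∀ k, (zpowers g ⊔ N S (k + 1)).IsSubnormal := by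
    intro k
    induction k with
    | zero =>
      rw [sup_eq_right.2 (zpowers_le_of_mem g1)]
      exact Normal.isSubnormal ⟨fun b hb a => nn _ a b hb⟩
    | succ k ih =>
      refine sn (fun a ha => J_mono (Nat.le_succ _) ha) (fun a ha => ?_)
        (fun a _ => nn _ a) ih
      simpa [mul_assoc, add_comm 1] using N_comm (inv_mem g1) ha
  have hp : ∀ k, d g.1 ^ (k + 1) ∈ J S (k + 1) := fun k => by
    induction k with
    | zero => rw [pow_one]; exact g1
    | succ k ih => rw [pow_succ]; exact J_mul ih g1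
  have hk : S.card < 2 ^ S.card := Nat.lt_two_pow_self
  have h2 : g.1.h.1 ^ 2 ^ S.card = 1 := by
    have := hp (2 ^ S.card - 1)
    rw [Nat.sub_add_cancel Nat.one_le_two_pow] at this
    rw [hd, frob e2, J_top hk this, add_zero]
  have h3 : (1 + pre g.1) ^ 2 ^ S.card = 0 := by
    have p2 : ∀ x : End F (W → F), x + x = 0 := fun x => LinearMap.ext fun _ => funext fun _ => f2 _
    have : ∀ k β w, (pre g.1 ^ k) β w = β ((g.1.h.1 ^ k) w) := fun k => by
      induction k with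
      | zero => simp
      | succ k ih => intro β w; rw [pow_succ, End.mul_apply, ih, pow_succ']; rfl
    rw [frob p2, show pre g.1 ^ 2 ^ S.card = 1 from LinearMap.ext fun β => funext fun w => by
      rw [this, h2]; rfl, p2]
  have h4 : ∀ j, (zpowers g ⊔ B g.1 (j + 1)).IsSubnormal → (zpowers g ⊔ B g.1 j).IsSubnormal :=
    fun j => sn (fun a ha => ⟨ha.1, by rw [pow_succ', End.mul_apply, ha.2, map_zero]⟩)
      (fun a ha => ⟨by simp [ha.1], by
        have : (g⁻¹ * (a * g * a⁻¹)).1.b = (1 + pre g.1) a.1.b := funext fun w => by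
          simp [ha.1, pre, ← End.mul_apply, add_assoc, f2, f3]
        rw [this, ← End.mul_apply, ← pow_succ, ha.2]⟩)
      (fun a' ha' a ha => by
        have : a' * a * a'⁻¹ = a := Subtype.ext (Γ.ext (funext fun w => by
          simp [ha.1, ha'.1, add_assoc, f3]) (by simp [ha'.1]))
        rwa [this])
  have h5 : B g.1 (2 ^ S.card) = N S (S.card + 1) := Subgroup.ext fun a =>
    ⟨fun h => by
      change d _ ∈ J _ _
      rw [d, h.1, Units.val_one, e2]; exact zero_mem _,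
    fun h => ⟨Units.ext (by rw [hd, J_top (Nat.lt_succ_self _) h]; simp), by rw [h3]; rfl⟩⟩
  have h6 : (zpowers g ⊔ B g.1 0).IsSubnormal :=
    Nat.decreasingInduction (fun j _ => h4 j) (h5 ▸ h1 _) (Nat.zero_le (2 ^ S.card))
  rwa [sup_eq_left.2 fun a ha => by
    rw [show a = 1 from Subtype.ext (Γ.ext ha.2 ha.1)]; exact one_mem _] at h6

lemma xx {a b c : ℚ} (h : a < b) (h' : b < c) : X (h.trans h') = X h * X h' * (X h)⁻¹ * (X h')⁻¹ := by
  rw [eq_mul_inv_iff_mul_eq, eq_mul_inv_iff_mul_eq]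
  refine Subtype.ext (Γ.ext (funext fun w => by simp [X, x]) (Units.ext ?_))
  simp [X, x, mul_add, add_mul, ee, h.ne', h'.ne', (h.trans h').ne']
  abel

lemma sc {a c : ℚ} (h : a < c) (w z : W) : (Pi.single w 1 : W → F) (z + Finsupp.single a (z c)) =
    (Pi.single (w + Finsupp.single a (w c)) 1 : W → F) z := by
  have : z + Finsupp.single a (z c) = w ↔ z = w + Finsupp.single a (w c) := by
    constructor <;> rintro rfl <;> simp [h.ne', add_assoc, w2]
  simp only [Pi.single_apply, this]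

lemma pc (g : G) : normalClosure (centralizer {g} : Set G) = ⊤ := by
  classical
  set M := normalClosure (centralizer {g} : Set G)
  have nM : M.Normal := normalClosure_normal
  obtain ⟨⟨S, hS⟩, hf⟩ := str g.2
  let T := S ∪ hf.toFinset.biUnion Finsupp.support
  have pick : ∀ {a b : ℚ} (T : Finset ℚ), a < b → ∃ c, a < c ∧ c < b ∧ c ∉ T := fun T h => by
    obtain ⟨c, hc, hc'⟩ := (Set.Ioo_infinite h).exists_notMem_finset T
    exact ⟨c, hc.1, hc.2, hc'⟩
  have hX : ∀ a b (h : a < b), X h ∈ M := fun a b h => by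
    obtain ⟨c, h1, h2, hc⟩ := pick T h
    obtain ⟨c', h3, h4, hc'⟩ := pick T h2
    have m1 : X h3 ∈ M := subset_normalClosure (mem_centralizer_singleton_iff.2
      (Subtype.ext (Γ.ext (funext fun w => ?_) (Units.ext ?_))))
    · have m2 : X (h1.trans h3) ∈ M := xx h1 h3 ▸ mul_mem (nM.conj_mem _ m1 _) (inv_mem m1)
      rw [xx (h1.trans h3) h4, mul_assoc, mul_assoc, ← mul_assoc (X h4)]
      exact mul_mem m2 (nM.conj_mem _ (inv_mem m2) _)
    · have hb : ∀ w : W, w c' ≠ 0 → g.1.b w = 0 := fun w hw => by_contra fun h => hc'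
        (Finset.mem_union_right _ (Finset.mem_biUnion.2 ⟨w, hf.mem_toFinset.2 h,
          Finsupp.mem_support_iff.2 hw⟩))
      by_cases hw : w c' = 0
      · simp [X, x, hw]
      · simp [X, x, hb w hw, hb (w + Finsupp.single c (w c')) (by simpa [h3.ne'] using hw)]
    · have z1 : e c c' * d g.1 = 0 := coef_zero fun p q => by_contra fun h => by
        obtain ⟨r, k1, k2⟩ := coef_mul h
        rw [coef, e_app, Finsupp.single_apply_ne_zero, Finsupp.single_apply_ne_zero] at k1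
        exact hc' (Finset.mem_union_left _ (k1.2.1 ▸ (hS _ _ k2).2.1))
      have z2 : d g.1 * e c c' = 0 := coef_zero fun p q => by_contra fun h => by
        obtain ⟨r, k1, k2⟩ := coef_mul h
        rw [coef, e_app, Finsupp.single_apply_ne_zero] at k2
        exact hc (Finset.mem_union_left _ (k2.1 ▸ (hS _ _ k1).2.2))
      change (1 + e c c') * g.1.h.1 = g.1.h.1 * (1 + e c c')
      rw [hd]
      simp [mul_add, add_mul, z1, z2]
      abel
  have hY : ∀ (w : W) c (h : w 0 = 1) (hc : c < 0), Y h hc ∈ M := fun w c h hc => by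
    obtain ⟨c', h1, h2, h3⟩ := pick w.support hc
    rw [Finsupp.notMem_support_iff] at h3
    have h' : (w + Finsupp.single c' 1 : W) 0 = 1 := by simp [h, h2.ne']
    have : Y h hc = X h2 * (Y h h2 * (X h1 * (Y h h2)⁻¹ * (X h1)⁻¹)) * (X h2)⁻¹ := by
      refine Subtype.ext (Γ.ext (funext fun z => ?_) (Units.ext ?_))
      · have k : ∀ {a b : ℚ} (h : a < b) (σ : G) (z : W), (X h * σ * (X h)⁻¹).1.b z =
            σ.1.b (z + Finsupp.single a (z b)) := fun h σ z => by simp [X, x]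
        have k2 : ∀ (σ : G) (z : W), (Y h h2 * (X h1 * (Y h h2)⁻¹ * (X h1)⁻¹)).1.b z =
            (X h1 * (Y h h2)⁻¹ * (X h1)⁻¹).1.b z + (Y h h2).1.b z := fun σ z => by
          simp [Y, y, X, x, h1.ne', add_assoc, w2]
        have k3 : ∀ z, (Y h h2)⁻¹.1.b z = (Y h h2).1.b z := fun z => by simp [Y, y]
        rw [k, k2 1, k, k3]
        change _ = (Pi.single w 1 : W → F) _ + (Pi.single _ 1 : W → F) _ +
          ((Pi.single w 1 : W → F) _ + (Pi.single _ 1 : W → F) _)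
        rw [sc h1, sc h1, sc h2, sc h2, sc h2, sc h2]
        simp [Y, y, h, h3, h1.ne, h1.ne', h2.ne, h2.ne', hc.ne, hc.ne',
          add_right_comm w (Finsupp.single c' 1), add_assoc, w2]
        rw [add_left_comm _ _ (_ + _), ← add_assoc (Pi.single (w + Finsupp.single c' 1) 1 z), f2,
          zero_add, add_comm]
      · simp [X, Y, x, y, x_sq h1, x_sq h2]
    rw [this]
    refine nM.conj_mem _ ?_ _
    simpa [mul_assoc] using mul_mem (nM.conj_mem _ (hX _ _ h1) (Y h h2)) (inv_mem (hX _ _ h1))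
  refine eq_top_iff.2 fun ⟨σ, hσ⟩ _ => ?_
  induction hσ using closure_induction with
  | mem σ hσ =>
    rcases hσ with ⟨a, c, h, rfl⟩ | ⟨w, c, h, hc, rfl⟩
    exacts [hX a c h, hY w c h hc]
  | one => exact one_mem M
  | mul σ τ h1 h2 p q => exact mul_mem (p trivial) (q trivial)
  | inv σ h p => exact inv_mem (p trivial)

lemma neg (k : ℕ) : -(k : ℚ) - 1 < 0 := by linarith [k.cast_nonneg (α := ℚ)]

lemma nf (M : Subgroup G) (nM : M.Normal) (h : X (neg 0) ∈ M) : ¬ Group.IsNilpotent M := by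
  intro hn
  obtain ⟨n, hn⟩ := (isNilpotent_iff_lowerCentralSeries M).1 hn
  have hX : ∀ k, X (neg k) ∈ M := fun k => by
    rcases k with _ | k
    · exact h
    · have h1 : -((k + 1 : ℕ) : ℚ) - 1 < -((0 : ℕ) : ℚ) - 1 := by
        push_cast; linarith [k.cast_nonneg (α := ℚ)]
      exact xx h1 (neg 0) ▸ mul_mem (nM.conj_mem _ h _) (inv_mem h)
  let v : W := Finsupp.single 0 1
  let P : ℕ → G → Prop := fun k σ => σ.1.h = 1 ∧ σ.1.b v = 1 ∧
    ∀ w, σ.1.b w ≠ 0 → ∀ j, k ≤ j → w (-(j : ℚ) - 1) = 0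
  have step : ∀ k σ, P k σ → P (k + 1) ⁅σ, X (neg k)⁆ := fun k σ ⟨p1, p2, p3⟩ => by
    have e1 : ∀ w, ⁅σ, X (neg k)⁆.1.b w = σ.1.b w + σ.1.b (w + Finsupp.single (-(k : ℚ) - 1) (w 0)) :=
      fun w => by
        simp [commutatorElement_def, X, x, p1, (neg k).ne', add_assoc, w2]
        exact add_comm _ _
    refine ⟨by simp [commutatorElement_def, p1], ?_, fun w hw j hj => ?_⟩
    · rw [e1, p2, show σ.1.b _ = 0 from by_contra fun h => by
        simpa [v, (neg k).ne] using p3 _ h k le_rfl, add_zero]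
    · rw [e1] at hw
      by_cases h1 : σ.1.b w = 0
      · have hjk : -(j : ℚ) - 1 ≠ -(k : ℚ) - 1 := by simp; omega
        rw [h1, zero_add] at hw
        simpa [hjk] using p3 _ hw j (by omega)
      · exact p3 w h1 j (by omega)
  have p0 : P 0 (Y (w := v) (c := -1 / 2) (by simp [v]) (by norm_num)) := by
    refine ⟨rfl, by simp [Y, y], fun w hw j _ => ?_⟩
    have hj : -(j : ℚ) - 1 ≠ -1 / 2 := by linarith [j.cast_nonneg (α := ℚ)] |> fun h : -(j : ℚ) - 1 < -1 / 2 => h.ne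
    by_cases h1 : w = v
    · simp [h1, v, (neg j).ne]
    · by_cases h2 : w = v + Finsupp.single (-1 / 2) 1
      · simp [h2, v, (neg j).ne, hj]
      · simp [Y, y, h1, h2] at hw
  have key : ∀ k, ∃ σ ∈ M.lowerCentralSeries k, P (k + 1) σ := fun k => by
    induction k with
    | zero => exact ⟨_, mul_mem (nM.conj_mem _ (hX 0) _) (inv_mem (hX 0)), step 0 _ p0⟩
    | succ k ih =>
      obtain ⟨σ, h1, h2⟩ := ih
      exact ⟨_, commutator_mem_commutator h1 (hX _), step _ _ h2⟩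
  obtain ⟨σ, h1, -, h2, -⟩ := key n
  rw [hn, mem_bot] at h1
  simp [h1] at h2

theorem result : ∃ (H : Type) (_ : Group H),
    (∀ g : H, normalClosure (centralizer {g} : Set H) = ⊤) ∧
    (∀ g : H, (zpowers g).IsSubnormal) ∧
    ¬ ∀ g : H, ∃ M : Subgroup H, M.Normal ∧ Group.IsNilpotent M ∧ g ∈ M :=
  ⟨G, inferInstance, pc, baer, fun h => by
    obtain ⟨M, h1, h2, h3⟩ := h (X (neg 0))
    exact nf M h1 h3 h2⟩

end Pool.Agent.Results.MP_a7b7fa_al.BaerNotFitting
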